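import Pool.Agent.Q61.Liou

set_option autoImplicit false

open MeasureTheory InnerProductSpace Laplacian Topology Filter Set
open scoped ContDiff ENNReal

namespace Pool.Agent.Results.MP_ae50c7_an.UnboundedDiameter

/-- Continuous, piecewise `C¹` curves `γ : [0,1] → ℂ = ℝ²`. -/
def PiecewiseC1 (γ : ℝ → ℂ) : Prop :=
  ContinuousOn γ (Icc 0 1) ∧ ∃ (n : ℕ) (t : ℕ → ℝ), Monotone t ∧ t 0 = 0 ∧ t n = 1 ∧
    ∀ i < n, t i < t (i + 1) → ContDiffOn ℝ 1 γ (Icc (t i) (t (i + 1)))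

/-- The length of `γ` for the metric `e^{2u}|dz|²`. -/
noncomputable def glength (u : ℂ → ℝ) (γ : ℝ → ℂ) : ℝ :=
  ∫ t in (0:ℝ)..1, Real.exp (u (γ t)) * ‖deriv γ t‖

/-- The distance of `x` and `y` for the metric `e^{2u}|dz|²`. -/
noncomputable def gdist (u : ℂ → ℝ) (x y : ℂ) : ℝ≥0∞ :=
  ⨅ (γ : ℝ → ℂ) (_ : PiecewiseC1 γ ∧ γ 0 = x ∧ γ 1 = y), ENNReal.ofReal (glength u γ)

/-- The diameter of the plane for the metric `e^{2u}|dz|²`. -/
noncomputable def gdiam (u : ℂ → ℝ) : ℝ≥0∞ := ⨆ (x : ℂ) (y : ℂ), gdist u x y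

/-- For every `C` there is a smooth solution of the Liouville equation `Δu + e^{2u} = 0` on the plane
with diameter larger than `Cπ`. -/
theorem result : ∀ C : ℝ, ∃ u : ℂ → ℝ, ContDiff ℝ ∞ u ∧
    (∀ z, (Δ u) z + Real.exp (2 * u z) = 0) ∧ ENNReal.ofReal (C * Real.pi) < gdiam u := by
  intro C
  obtain ⟨n, hn⟩ := pow_unbounded_of_one_lt (4 * (|C| * Real.pi + 1)) (by norm_num : (1:ℝ) < 3 / 2)
  obtain ⟨w, p, q, h1, h2, _, h4⟩ := Q61.Liou.exists_far n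
  refine ⟨w, h1, h2, ?_⟩
  have h5 : ENNReal.ofReal (|C| * Real.pi + 1) ≤ gdist w p q := by
    unfold gdist
    refine le_iInf₂ fun γ hγ => ?_
    apply ENNReal.ofReal_le_ofReal
    obtain ⟨⟨hc, m, t, ht⟩, ha, hb⟩ := hγ
    have := h4 0 1 γ ⟨zero_le_one, hc, m, t, ht⟩ ha hb
    have h6 : glength w γ = Q61.Len.len w γ 0 1 := rfl
    rw [h6]
    linarith
  have h6 : gdist w p q ≤ gdiam w := le_iSup₂ (f := fun x y => gdist w x y) p q
  refine lt_of_lt_of_le ?_ (h5.trans h6)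
  rw [ENNReal.ofReal_lt_ofReal_iff (by positivity)]
  have := mul_le_mul_of_nonneg_right (le_abs_self C) Real.pi_pos.le
  linarith

end Pool.Agent.Results.MP_ae50c7_an.UnboundedDiameter
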